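import Mathlib
import Pool.Agent.H2.SF02Defs
import Pool.Agent.H2.SF02Proof

open Pool.Agent.H2.SF02 in
theorem Pool.Agent.Results.MP_473a0d_co.Most.result (G : Type) [AddCommGroup G] [Fintype G]
    [DecidableEq G] :
    (∀ p : ℕ, IsLeast {q : ℕ | q.Prime ∧ q ∣ Fintype.card G ∧ q % 4 = 3} p →
      IsGreatest (sizes G) ((p + 1) / 4 * (Fintype.card G / p))) ∧
    ((¬ ∃ q : ℕ, q.Prime ∧ q ∣ Fintype.card G ∧ q % 4 = 3) → 4 ∣ AddMonoid.exponent G →
      IsGreatest (sizes G) (Fintype.card G / 4)) ∧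
    ((¬ ∃ q : ℕ, q.Prime ∧ q ∣ Fintype.card G ∧ q % 4 = 3) → ¬ 4 ∣ AddMonoid.exponent G →
      2 ∣ Fintype.card G →
      IsGreatest (sizes G)
        ((Fintype.card G - (Finset.univ.filter fun x : G => x + x = 0).card) / 4)) :=
  ⟨fun _ => case_a, case_b, case_c⟩
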